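import Pool.Agent.TH37.RZ.Defs

set_option autoImplicit false

namespace Pool.Agent.TH788.RZAnn

open Pool.Agent.TH37.RF (commIdeal NilpId TT zword wd)
open Pool.Agent.TH37.RZ

lemma fin_field (K : Type) [Field K] [Module.Finite ℤ K] : Finite K := by
  obtain ⟨p, hp⟩ := CharP.exists K
  by_cases hp0 : p = 0
  · subst hp0
    have : CharZero K := CharP.charP_to_charZero K
    exfalso
    have h1 : Algebra.IsIntegral ℤ K := inferInstance
    have h2 : IsField ℤ := isField_of_isIntegral_of_isField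
      (by intro a b hab; simpa using hab : Function.Injective (algebraMap ℤ K)) (Field.toIsField K)
    exact Int.not_isField h2
  · have htor : IsAddTorsion K := by
      intro x
      rw [isOfFinAddOrder_iff_nsmul_eq_zero]
      exact ⟨p, Nat.pos_of_ne_zero hp0, by rw [nsmul_eq_mul, CharP.cast_eq_zero, zero_mul]⟩
    have : AddGroup.FG K := Module.Finite.iff_addGroup_fg.1 inferInstance
    exact AddCommGroup.finite_of_fg_isAddTorsion K htor

instance : IsJacobsonRing ℤ := by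
  rw [isJacobsonRing_iff_prime_eq]
  intro P hP
  by_cases h0 : P = ⊥
  · subst h0
    rw [eq_bot_iff]
    intro x hx
    rw [Ideal.mem_jacobson_bot] at hx
    have h1 := hx (3 * x)
    rw [Int.isUnit_iff] at h1
    rw [Submodule.mem_bot]
    by_contra hne
    have h2 : 0 < x * x := mul_self_pos.2 hne
    rcases h1 with h1 | h1 <;> nlinarith
  · have : P.IsMaximal := hP.isMaximal h0
    exact Ideal.jacobson_eq_self_of_isMaximal

lemma ft_of {A : Type} [CommRing A] (I : Algebra ℤ A) (h : @Algebra.FiniteType ℤ A _ _ I) :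
    @Algebra.FiniteType ℤ A _ _ (Ring.toIntAlgebra A) := by
  have h1 : I = Ring.toIntAlgebra A := Subsingleton.elim _ _
  subst h1
  exact h

lemma mv_finiteType (σ : Type) [Finite σ] :
    @Algebra.FiniteType ℤ (MvPolynomial σ ℤ) _ _ (Ring.toIntAlgebra _) :=
  ft_of _ (show @Algebra.FiniteType ℤ (MvPolynomial σ ℤ) _ _ AddMonoidAlgebra.algebra from
    inferInstance)

lemma fin_of_simple (A H : Type) [CommRing A]
    [Algebra.FiniteType ℤ A] [AddCommGroup H] [Module A H] (hs : IsSimpleModule A H) :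
    Finite H := by
  obtain ⟨m, hm, ⟨e⟩⟩ := isSimpleModule_iff_quot_maximal.1 hs
  let _ : Field (A ⧸ m) := Ideal.Quotient.field m
  have : Algebra.FiniteType ℤ (A ⧸ m) := inferInstance
  have : Module.Finite ℤ (A ⧸ m) := finite_of_finite_type_of_isJacobsonRing ℤ (A ⧸ m)
  have : Finite (A ⧸ m) := fin_field (A ⧸ m)
  exact Finite.of_equiv _ e.symm.toEquiv

variable {C : Type} [Ring C]

lemma kill_left (ε : C →+* ℤ) (hnil : NilpId (commIdeal C)) (h : C) (hm : Mono ε h) :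
    ∀ ν ∈ commIdeal C, ν * h = 0 := by
  classical
  obtain ⟨n, hn⟩ := hnil
  set H : TwoSidedIdeal C := TwoSidedIdeal.span {h} with hH
  have hhH : h ∈ H := TwoSidedIdeal.subset_span (Set.mem_singleton h)
  have hHε : ∀ x ∈ H, ε x = 0 := by
    intro x hx
    have : H ≤ TwoSidedIdeal.ker ε := by
      rw [hH, TwoSidedIdeal.span_le]
      intro y hy
      rw [Set.mem_singleton_iff] at hy
      subst hy
      exact (TwoSidedIdeal.mem_ker _).2 hm.aug
    exact (TwoSidedIdeal.mem_ker _).1 (this hx)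
  let P : ℕ → Prop := fun k => ∃ x : Fin k → C, (∀ i, x i ∈ commIdeal C) ∧ ∃ z ∈ H,
    (List.ofFn x).prod * z ≠ 0
  have hP0 : P 0 := ⟨Fin.elim0, fun i => i.elim0, h, hhH, by simpa using hm.ne⟩
  have hPn : ¬ P n := by
    rintro ⟨x, hx, z, -, hz⟩
    exact hz (by rw [hn x hx, zero_mul])
  have hex : ∃ k, ¬ P k := ⟨n, hPn⟩
  obtain ⟨k, hk, hk1⟩ : ∃ k, P k ∧ ¬ P (k + 1) := by
    by_contra hcon
    push Not at hcon
    exact hPn (Nat.rec hP0 (fun k ih => hcon k ih) n)
  obtain ⟨x, hx, z, hz, hne⟩ := hk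
  let Z : TwoSidedIdeal C := TwoSidedIdeal.mk' {w : C | w ∈ H ∧ ∀ ν ∈ commIdeal C, ν * w = 0}
    ⟨H.zero_mem, fun ν _ => mul_zero ν⟩
    (fun {a b} ha hb => ⟨H.add_mem ha.1 hb.1, fun ν hν => by
      rw [mul_add, ha.2 ν hν, hb.2 ν hν, add_zero]⟩)
    (fun {a} ha => ⟨H.neg_mem ha.1, fun ν hν => by rw [mul_neg, ha.2 ν hν, neg_zero]⟩)
    (fun {a b} hb => ⟨H.mul_mem_left _ _ hb.1, fun ν hν => by
      rw [← mul_assoc]; exact hb.2 _ ((commIdeal C).mul_mem_right _ _ hν)⟩)
    (fun {a b} ha => ⟨H.mul_mem_right _ _ ha.1, fun ν hν => by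
      rw [← mul_assoc, ha.2 ν hν, zero_mul]⟩)
  have hmemZ : ∀ w, w ∈ Z ↔ (w ∈ H ∧ ∀ ν ∈ commIdeal C, ν * w = 0) := fun w =>
    TwoSidedIdeal.mem_mk' _ _ _ _ _ _ w
  have hwZ : (List.ofFn x).prod * z ∈ Z := by
    rw [hmemZ]
    refine ⟨H.mul_mem_left _ _ hz, fun ν hν => ?_⟩
    by_contra hne2
    refine hk1 ⟨Fin.cons ν x, ?_, z, hz, ?_⟩
    · intro i
      refine Fin.cases ?_ ?_ i
      · simpa using hν
      · intro j; simpa using hx j
    · rw [List.ofFn_succ]
      simpa [mul_assoc] using hne2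
  have hZne : Z ≠ ⊥ := by
    intro hZ
    rw [hZ] at hwZ
    exact hne ((TwoSidedIdeal.mem_bot C).1 hwZ)
  have := hm.mem Z (fun w hw => hHε w ((hmemZ w).1 hw).1) hZne
  exact ((hmemZ h).1 this).2

lemma kill_right (ε : C →+* ℤ) (hnil : NilpId (commIdeal C)) (h : C) (hm : Mono ε h) :
    ∀ ν ∈ commIdeal C, h * ν = 0 := by
  classical
  obtain ⟨n, hn⟩ := hnil
  set H : TwoSidedIdeal C := TwoSidedIdeal.span {h} with hH
  have hhH : h ∈ H := TwoSidedIdeal.subset_span (Set.mem_singleton h)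
  have hHε : ∀ x ∈ H, ε x = 0 := by
    intro x hx
    have : H ≤ TwoSidedIdeal.ker ε := by
      rw [hH, TwoSidedIdeal.span_le]
      intro y hy
      rw [Set.mem_singleton_iff] at hy
      subst hy
      exact (TwoSidedIdeal.mem_ker _).2 hm.aug
    exact (TwoSidedIdeal.mem_ker _).1 (this hx)
  let P : ℕ → Prop := fun k => ∃ x : Fin k → C, (∀ i, x i ∈ commIdeal C) ∧ ∃ z ∈ H,
    z * (List.ofFn x).prod ≠ 0
  have hP0 : P 0 := ⟨Fin.elim0, fun i => i.elim0, h, hhH, by simpa using hm.ne⟩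
  have hPn : ¬ P n := by
    rintro ⟨x, hx, z, -, hz⟩
    exact hz (by rw [hn x hx, mul_zero])
  obtain ⟨k, hk, hk1⟩ : ∃ k, P k ∧ ¬ P (k + 1) := by
    by_contra hcon
    push Not at hcon
    exact hPn (Nat.rec hP0 (fun k ih => hcon k ih) n)
  obtain ⟨x, hx, z, hz, hne⟩ := hk
  let Z : TwoSidedIdeal C := TwoSidedIdeal.mk' {w : C | w ∈ H ∧ ∀ ν ∈ commIdeal C, w * ν = 0}
    ⟨H.zero_mem, fun ν _ => zero_mul ν⟩
    (fun {a b} ha hb => ⟨H.add_mem ha.1 hb.1, fun ν hν => by
      rw [add_mul, ha.2 ν hν, hb.2 ν hν, add_zero]⟩)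
    (fun {a} ha => ⟨H.neg_mem ha.1, fun ν hν => by rw [neg_mul, ha.2 ν hν, neg_zero]⟩)
    (fun {a b} hb => ⟨H.mul_mem_left _ _ hb.1, fun ν hν => by
      rw [mul_assoc, hb.2 ν hν, mul_zero]⟩)
    (fun {a b} ha => ⟨H.mul_mem_right _ _ ha.1, fun ν hν => by
      rw [mul_assoc]; exact ha.2 _ ((commIdeal C).mul_mem_left _ _ hν)⟩)
  have hmemZ : ∀ w, w ∈ Z ↔ (w ∈ H ∧ ∀ ν ∈ commIdeal C, w * ν = 0) := fun w =>
    TwoSidedIdeal.mem_mk' _ _ _ _ _ _ w
  have hwZ : z * (List.ofFn x).prod ∈ Z := by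
    rw [hmemZ]
    refine ⟨H.mul_mem_right _ _ hz, fun ν hν => ?_⟩
    by_contra hne2
    refine hk1 ⟨Fin.snoc x ν, ?_, z, hz, ?_⟩
    · intro i
      refine Fin.lastCases ?_ ?_ i
      · simpa using hν
      · intro j; simpa using hx j
    · rw [List.ofFn_succ']
      simpa [mul_assoc, List.concat_eq_append] using hne2
  have hZne : Z ≠ ⊥ := by
    intro hZ
    rw [hZ] at hwZ
    exact hne ((TwoSidedIdeal.mem_bot C).1 hwZ)
  have := hm.mem Z (fun w hw => hHε w ((hmemZ w).1 hw).1) hZne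
  exact ((hmemZ h).1 this).2

/-- the two-sided ideal generated by `h`, as a subspace -/
def HS {C : Type} [Ring C] (h : C) : Submodule ℤ C :=
  Submodule.span ℤ {x | ∃ u v : C, x = u * h * v}

lemma HS_left (h c : C) : ∀ x ∈ HS h, c * x ∈ HS h := by
  intro x hx
  induction hx using Submodule.span_induction with
  | mem x hx =>
    obtain ⟨u, v, rfl⟩ := hx
    exact Submodule.subset_span ⟨c * u, v, by simp only [mul_assoc]⟩
  | zero => rw [mul_zero]; exact Submodule.zero_mem _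
  | add x y _ _ hx hy => rw [mul_add]; exact Submodule.add_mem _ hx hy
  | smul a x _ hx => rw [mul_smul_comm]; exact Submodule.smul_mem _ _ hx

lemma HS_right (h c : C) : ∀ x ∈ HS h, x * c ∈ HS h := by
  intro x hx
  induction hx using Submodule.span_induction with
  | mem x hx =>
    obtain ⟨u, v, rfl⟩ := hx
    exact Submodule.subset_span ⟨u, v * c, by simp only [mul_assoc]⟩
  | zero => rw [zero_mul]; exact Submodule.zero_mem _
  | add x y _ _ hx hy => rw [add_mul]; exact Submodule.add_mem _ hx hy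
  | smul a x _ hx => rw [smul_mul_assoc]; exact Submodule.smul_mem _ _ hx

lemma HS_kill_left (h : C) (hk : ∀ ν ∈ commIdeal C, ν * h = 0) :
    ∀ x ∈ HS h, ∀ ν ∈ commIdeal C, ν * x = 0 := by
  intro x hx
  induction hx using Submodule.span_induction with
  | mem x hx =>
    obtain ⟨u, v, rfl⟩ := hx
    intro ν hν
    rw [← mul_assoc, ← mul_assoc, hk _ ((commIdeal C).mul_mem_right _ _ hν), zero_mul]
  | zero => intro ν _; rw [mul_zero]
  | add x y _ _ hx hy => intro ν hν; rw [mul_add, hx ν hν, hy ν hν, add_zero]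
  | smul a x _ hx => intro ν hν; rw [mul_smul_comm, hx ν hν, smul_zero]

lemma HS_kill_right (h : C) (hk : ∀ ν ∈ commIdeal C, h * ν = 0) :
    ∀ x ∈ HS h, ∀ ν ∈ commIdeal C, x * ν = 0 := by
  intro x hx
  induction hx using Submodule.span_induction with
  | mem x hx =>
    obtain ⟨u, v, rfl⟩ := hx
    intro ν hν
    rw [mul_assoc, mul_assoc, hk _ ((commIdeal C).mul_mem_left _ _ hν), mul_zero]
  | zero => intro ν _; rw [zero_mul]
  | add x y _ _ hx hy => intro ν hν; rw [add_mul, hx ν hν, hy ν hν, add_zero]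
  | smul a x _ hx => intro ν hν; rw [smul_mul_assoc, hx ν hν, smul_zero]

/-- left multiplication on `HS` -/
def LL (h c : C) : HS h →ₗ[ℤ] HS h := (LinearMap.mulLeft ℤ c).restrict (HS_left h c)

/-- right multiplication on `HS` -/
def RR (h c : C) : HS h →ₗ[ℤ] HS h := (LinearMap.mulRight ℤ c).restrict (HS_right h c)

@[simp] lemma LL_apply (h c : C) (x : HS h) : ((LL h c x : HS h) : C) = c * x := rfl
@[simp] lemma RR_apply (h c : C) (x : HS h) : ((RR h c x : HS h) : C) = x * c := rfl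

/-- left multiplication as a ring homomorphism -/
def LLh (h : C) : C →+* Module.End ℤ (HS h) where
  toFun c := LL h c
  map_one' := by ext x; simp
  map_mul' a b := by ext x; simp [mul_assoc]
  map_zero' := by ext x; simp
  map_add' a b := by ext x; simp [add_mul]

/-- right multiplication as a ring homomorphism -/
def RRh (h : C) : C →+* (Module.End ℤ (HS h))ᵐᵒᵖ where
  toFun c := MulOpposite.op (RR h c)
  map_one' := by rw [← MulOpposite.op_one]; congr 1; ext x; simp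
  map_mul' a b := by rw [← MulOpposite.op_mul]; congr 1; ext x; simp [mul_assoc]
  map_zero' := by rw [← MulOpposite.op_zero]; congr 1; ext x; simp
  map_add' a b := by rw [← MulOpposite.op_add]; congr 1; ext x; simp [mul_add]

lemma HS_aug (ε : C →+* ℤ) (h : C) (hε : ε h = 0) : ∀ x ∈ HS h, ε x = 0 := by
  intro x hx
  induction hx using Submodule.span_induction with
  | mem x hx =>
    obtain ⟨u, v, rfl⟩ := hx
    rw [map_mul, map_mul, hε, mul_zero, zero_mul]
  | zero => rw [map_zero]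
  | add x y _ _ hx hy => rw [map_add, hx, hy, add_zero]
  | smul a x _ hx => rw [map_zsmul, hx, smul_zero]

lemma comm_mem (u v : C) : u * v - v * u ∈ commIdeal C :=
  TwoSidedIdeal.subset_span ⟨u, v, rfl⟩

lemma LL_comm (h : C) (hk : ∀ ν ∈ commIdeal C, ν * h = 0) (a b : C) :
    LL h a * LL h b = (LL h b * LL h a : Module.End ℤ (HS h)) := by
  ext x
  have h1 := HS_kill_left h hk x.1 x.2 _ (comm_mem a b)
  have h2 : a * (b * (x : C)) = b * (a * x) := by
    rw [sub_mul, sub_eq_zero, mul_assoc, mul_assoc] at h1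
    exact h1
  simpa using h2

lemma RR_comm (h : C) (hk : ∀ ν ∈ commIdeal C, h * ν = 0) (a b : C) :
    RR h a * RR h b = (RR h b * RR h a : Module.End ℤ (HS h)) := by
  ext x
  have h1 := HS_kill_right h hk x.1 x.2 _ (comm_mem b a)
  have h2 : (x : C) * b * a = x * a * b := by
    rw [mul_sub, sub_eq_zero, ← mul_assoc, ← mul_assoc] at h1
    exact h1
  simpa using h2

lemma LR_comm (h a b : C) :
    LL h a * RR h b = (RR h b * LL h a : Module.End ℤ (HS h)) := by
  ext x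
  simp [mul_assoc]

/-- the generators of the commutative algebra acting on `HS` -/
def gen {r : ℕ} (h : C) (b : Fin r → C) : Fin r ⊕ Fin r → Module.End ℤ (HS h) :=
  Sum.elim (fun i => LL h (b i)) (fun i => RR h (b i))

lemma gen_comm {r : ℕ} (h : C) (b : Fin r → C) (hk : ∀ ν ∈ commIdeal C, ν * h = 0)
    (hk' : ∀ ν ∈ commIdeal C, h * ν = 0) (i j : Fin r ⊕ Fin r) :
    gen h b i * gen h b j = gen h b j * gen h b i := by
  rcases i with i | i <;> rcases j with j | j
  · exact LL_comm h hk _ _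
  · exact LR_comm h _ _
  · exact (LR_comm h _ _).symm
  · exact RR_comm h hk' _ _

open scoped IsMulCommutative in
lemma exists_hom {F E ι : Type} [CommRing F] [Ring E] [Algebra F E] (g : ι → E)
    (hc : ∀ i j, g i * g j = g j * g i) :
    ∃ ψ : MvPolynomial ι F →ₐ[F] E, ∀ i, ψ (MvPolynomial.X i) = g i := by
  have hS : IsMulCommutative (Algebra.adjoin F (Set.range g)) :=
    Algebra.isMulCommutative_adjoin F (by rintro _ ⟨i, rfl⟩ _ ⟨j, rfl⟩; exact hc i j)
  let al : MvPolynomial ι F →ₐ[F] Algebra.adjoin F (Set.range g) :=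
    MvPolynomial.aeval (fun i => (⟨g i, Algebra.subset_adjoin ⟨i, rfl⟩⟩ :
      Algebra.adjoin F (Set.range g)))
  refine ⟨(Algebra.adjoin F (Set.range g)).val.comp al, fun i => ?_⟩
  rw [AlgHom.comp_apply]
  have : al (MvPolynomial.X i) = (⟨g i, Algebra.subset_adjoin ⟨i, rfl⟩⟩ :
      Algebra.adjoin F (Set.range g)) := MvPolynomial.aeval_X _ _
  rw [this]
  rfl

lemma exists_psi {r : ℕ} (h : C) (b : Fin r → C) (hk : ∀ ν ∈ commIdeal C, ν * h = 0)
    (hk' : ∀ ν ∈ commIdeal C, h * ν = 0) :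
    ∃ ψ : MvPolynomial (Fin r ⊕ Fin r) ℤ →ₐ[ℤ] Module.End ℤ (HS h),
      ∀ i, ψ (MvPolynomial.X i) = gen h b i :=
  exists_hom (F := ℤ) (E := Module.End ℤ (HS h)) (gen h b) (gen_comm h b hk hk')

lemma finite_HS (ε : C →+* ℤ) {r : ℕ} (b : Fin r → C)
    (hgen : Subring.closure (Set.range b) = ⊤) (h : C) (hm : Mono ε h)
    (hk : ∀ ν ∈ commIdeal C, ν * h = 0) (hk' : ∀ ν ∈ commIdeal C, h * ν = 0) :
    Finite (HS h) := by
  obtain ⟨ψ, hψ⟩ := exists_psi h b hk hk'
  have hL : ∀ c : C, ∃ a, ψ a = LL h c := by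
    have h1 : (⊤ : Subring C) ≤ (((ψ : MvPolynomial (Fin r ⊕ Fin r) ℤ →+* Module.End ℤ (HS h)).range).comap (LLh h)) := by
      rw [← hgen]
      refine Subring.closure_le.2 ?_
      rintro _ ⟨i, rfl⟩
      exact ⟨MvPolynomial.X (Sum.inl i), hψ (Sum.inl i)⟩
    intro c
    obtain ⟨a, ha⟩ := h1 (show c ∈ ⊤ from trivial)
    exact ⟨a, ha⟩
  have hR : ∀ c : C, ∃ a, ψ a = RR h c := by
    have h1 : (⊤ : Subring C) ≤ ((ψ : MvPolynomial (Fin r ⊕ Fin r) ℤ →+* Module.End ℤ (HS h)).range.op).comap (RRh h) := by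
      rw [← hgen]
      refine Subring.closure_le.2 ?_
      rintro _ ⟨i, rfl⟩
      exact ⟨MvPolynomial.X (Sum.inr i), hψ (Sum.inr i)⟩
    intro c
    obtain ⟨a, ha⟩ := h1 (show c ∈ ⊤ from trivial)
    exact ⟨a, ha⟩
  let md : Module (MvPolynomial (Fin r ⊕ Fin r) ℤ) (HS h) :=
    Module.compHom (HS h) (ψ : MvPolynomial (Fin r ⊕ Fin r) ℤ →+* Module.End ℤ (HS h))
  have hsmul : ∀ (a : MvPolynomial (Fin r ⊕ Fin r) ℤ) (x : HS h), md.smul a x = ψ a x :=
    fun a x => rfl
  have hh : h ∈ HS h := Submodule.subset_span ⟨1, 1, by simp⟩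
  have hsimple : @IsSimpleModule (MvPolynomial (Fin r ⊕ Fin r) ℤ) _ (HS h) _ md := by
    refine @IsSimpleModule.mk _ _ _ _ md ?_
    refine @IsSimpleOrder.mk _ _ _ ?_ ?_
    · refine ⟨⊥, ⊤, fun hbt => ?_⟩
      have : (⟨h, hh⟩ : HS h) ∈ (⊥ : @Submodule (MvPolynomial (Fin r ⊕ Fin r) ℤ) (HS h) _ _ md)
        := by rw [hbt]; trivial
      rw [Submodule.mem_bot] at this
      exact hm.ne (congrArg Subtype.val this)
    · intro p
      by_cases hp : p = ⊥
      · exact Or.inl hp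
      right
      have hpl : ∀ (c : C) (x : HS h), x ∈ p → LL h c x ∈ p := by
        intro c x hx
        obtain ⟨a, ha⟩ := hL c
        rw [← ha]
        exact p.smul_mem a hx
      have hpr : ∀ (c : C) (x : HS h), x ∈ p → RR h c x ∈ p := by
        intro c x hx
        obtain ⟨a, ha⟩ := hR c
        rw [← ha]
        exact p.smul_mem a hx
      let I : TwoSidedIdeal C := TwoSidedIdeal.mk' {x : C | ∃ hx : x ∈ HS h, (⟨x, hx⟩ : HS h) ∈ p}
        ⟨Submodule.zero_mem _, p.zero_mem⟩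
        (fun {a b} ha hb => ⟨Submodule.add_mem _ ha.1 hb.1, p.add_mem ha.2 hb.2⟩)
        (fun {a} ha => ⟨Submodule.neg_mem _ ha.1, p.neg_mem ha.2⟩)
        (fun {a b} hb => ⟨HS_left h a b hb.1, hpl a ⟨b, hb.1⟩ hb.2⟩)
        (fun {a b} ha => ⟨HS_right h b a ha.1, hpr b ⟨a, ha.1⟩ ha.2⟩)
      have hmemI : ∀ w, w ∈ I ↔ ∃ hx : w ∈ HS h, (⟨w, hx⟩ : HS h) ∈ p := fun w =>
        TwoSidedIdeal.mem_mk' _ _ _ _ _ _ w
      have hIne : I ≠ ⊥ := by
        intro hI
        apply hp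
        rw [Submodule.eq_bot_iff]
        intro x hx
        have : (x : C) ∈ I := (hmemI _).2 ⟨x.2, hx⟩
        rw [hI] at this
        exact Subtype.ext ((TwoSidedIdeal.mem_bot C).1 this)
      have hhI := (hmemI h).1 (hm.mem I (fun x hx => HS_aug ε h hm.aug x ((hmemI x).1 hx).1) hIne)
      obtain ⟨hh', hhp⟩ := hhI
      rw [eq_top_iff]
      rintro ⟨x, hx⟩ -
      induction hx using Submodule.span_induction with
      | mem x hx =>
        obtain ⟨u, v, rfl⟩ := hx
        exact hpr v _ (hpl u _ hhp)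
      | zero => exact p.zero_mem
      | add x y _ _ hx hy => exact p.add_mem hx hy
      | smul a x hx' hx =>
        have := hpl (algebraMap ℤ C a) _ hx
        have h2 : LL h (algebraMap ℤ C a) ⟨x, hx'⟩ = ⟨a • x, Submodule.smul_mem _ _ hx'⟩ :=
          Subtype.ext (Algebra.smul_def a x).symm
        exact h2 ▸ this
  exact @fin_of_simple (MvPolynomial (Fin r ⊕ Fin r) ℤ) (HS h) _ (mv_finiteType _) _ md hsimple

/-- JOB Z-ANN -/
theorem mono_ann (ε : C →+* ℤ) (hfg : FGen ε) (hnil : NilpId (commIdeal C))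
    (h : C) (hm : Mono ε h) :
    ∃ (Q : Type) (_ : Ring Q) (_ : Finite Q) (φ : C →+* Q),
      ∀ b, φ b = 0 → b * h = 0 ∧ h * b = 0 := by
  obtain ⟨r, b, hb, hgen⟩ := hfg
  have hk := kill_left ε hnil h hm
  have hk' := kill_right ε hnil h hm
  have hfin := finite_HS ε b hgen h hm hk hk'
  have hh : h ∈ HS h := Submodule.subset_span ⟨1, 1, by simp⟩
  have hE : Finite (Module.End ℤ (HS h)) :=
    Finite.of_injective (fun f : HS h →ₗ[ℤ] HS h => (f : HS h → HS h))
      DFunLike.coe_injective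
  have hE' : Finite (Module.End ℤ (HS h))ᵐᵒᵖ :=
    Finite.of_equiv _ MulOpposite.opEquiv
  refine ⟨Module.End ℤ (HS h) × (Module.End ℤ (HS h))ᵐᵒᵖ, inferInstance,
    inferInstance, RingHom.prod (LLh h) (RRh h), ?_⟩
  intro c hc
  have h1 : LLh h c = (0 : Module.End ℤ (HS h)) := congrArg Prod.fst hc
  have h2 : RRh h c = (0 : (Module.End ℤ (HS h))ᵐᵒᵖ) := congrArg Prod.snd hc
  have h2' : RR h c = (0 : Module.End ℤ (HS h)) := MulOpposite.op_injective h2
  constructor
  · have := congrArg (fun f : Module.End ℤ (HS h) => ((f ⟨h, hh⟩ : HS h) : C)) h1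
    exact this
  · have := congrArg (fun f : Module.End ℤ (HS h) => ((f ⟨h, hh⟩ : HS h) : C)) h2'
    exact this

end Pool.Agent.TH788.RZAnn
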